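import Pool.Agent.helper1.UN.SpecU

set_option autoImplicit false

open NumberField Complex MeasureTheory NumberField.Units NumberField.Units.dirichletUnitTheorem

open scoped Classical Pointwise

namespace Pool.Agent.UN

section

variable {K : Type} [Field K] [NumberField K]

/-- the translate of the fundamental domain -/
def VFS_A (F : Set (logSpace K)) (v : unitLattice K) : Set (logSpace K) := {x | x - (v : logSpace K) ∈ F}

/-- the translate of the strip -/
def VFS_T (F : Set (logSpace K)) (v : unitLattice K) : Set (ℝ × logSpace K) :=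
  (Set.univ : Set ℝ) ×ˢ (VFS_A F v)

theorem VFS_null (A : Set (logSpace K)) (hA : volume A = 0) :
    volume ((Set.univ : Set ℝ) ×ˢ A) = 0 := by
  rw [Measure.volume_eq_prod, Measure.prod_prod, hA, mul_zero]

theorem VFS_Aeq (F : Set (logSpace K)) (v : unitLattice K) : (v +ᵥ F : Set (logSpace K)) = VFS_A F v := by
  ext x
  rw [Set.mem_vadd_set]
  constructor
  · rintro ⟨y, hy, h⟩
    have h1 : x = (v : logSpace K) + y := h.symm
    show x - (v : logSpace K) ∈ F
    rw [h1, add_sub_cancel_left]
    exact hy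
  · intro h
    refine ⟨x - (v : logSpace K), h, ?_⟩
    show (v : logSpace K) + (x - (v : logSpace K)) = x
    rw [add_sub_cancel]

theorem VFS_disj (F : Set (logSpace K)) (hF : FD K F) :
    Pairwise (Function.onFun (AEDisjoint volume) (VFS_T F)) := by
  intro u v huv
  have h := hF.dom.aedisjoint huv
  have h0 : volume (VFS_A F u ∩ VFS_A F v) = 0 := by
    rw [← VFS_Aeq, ← VFS_Aeq]
    exact h
  have h1 : VFS_T F u ∩ VFS_T F v = (Set.univ : Set ℝ) ×ˢ (VFS_A F u ∩ VFS_A F v) := by
    ext p
    simp only [VFS_T, Set.mem_inter_iff, Set.mem_prod, Set.mem_univ, true_and]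
  show volume (VFS_T F u ∩ VFS_T F v) = 0
  rw [h1]
  exact VFS_null _ h0

theorem VFS_meas (F : Set (logSpace K)) (hF : FD K F) (v : unitLattice K) : MeasurableSet (VFS_T F v) := by
  refine MeasurableSet.univ.prod ?_
  exact (measurable_sub_const (v : logSpace K)) hF.meas

theorem VFS_cover (F : Set (logSpace K)) (hF : FD K F) : volume (⋃ v, VFS_T F v)ᶜ = 0 := by
  have h : ∀ᵐ x : logSpace K, ∃ g : unitLattice K, g +ᵥ x ∈ F := hF.dom.ae_covers
  have h1 : (⋃ v, VFS_T F v)ᶜ ⊆ (Set.univ : Set ℝ) ×ˢ {x : logSpace K | ¬ ∃ g : unitLattice K, g +ᵥ x ∈ F} := by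
    intro p hp
    refine ⟨Set.mem_univ _, fun hg => hp ?_⟩
    obtain ⟨g, hg⟩ := hg
    refine Set.mem_iUnion.2 ⟨-g, ⟨Set.mem_univ _, ?_⟩⟩
    show p.2 - ((-g : unitLattice K) : logSpace K) ∈ F
    have h2 : p.2 - ((-g : unitLattice K) : logSpace K) = g +ᵥ p.2 := by
      show p.2 - ((-g : unitLattice K) : logSpace K) = (g : logSpace K) + p.2
      push_cast
      abel
    rw [h2]
    exact hg
  exact measure_mono_null h1 (VFS_null _ h)

theorem VFS_pre (F : Set (logSpace K)) (v : unitLattice K) :
    (fun p : ℝ × logSpace K => (p.1, p.2 + (v : logSpace K))) ⁻¹' (VFS_T F v) = (Set.univ : Set ℝ) ×ˢ F := by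
  ext p
  simp only [VFS_T, VFS_A, Set.mem_preimage, Set.mem_prod, Set.mem_univ, true_and, Set.mem_ofPred_eq,
    add_sub_cancel_right]

theorem VFS_mp (v : logSpace K) :
    MeasurePreserving (fun p : ℝ × logSpace K => (p.1, p.2 + v)) volume volume := by
  have h1 : MeasurePreserving (fun x : logSpace K => x + v) volume volume := measurePreserving_add_right volume v
  exact (MeasurePreserving.id (volume : Measure ℝ)).prod h1

theorem VFS_emb (v : logSpace K) :
    MeasurableEmbedding (fun p : ℝ × logSpace K => (p.1, p.2 + v)) := by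
  have h := measurableEmbedding_addRight ((0 : ℝ), v)
  have h1 : (fun p : ℝ × logSpace K => (p.1, p.2 + v)) = fun p => p + ((0 : ℝ), v) := by
    funext p
    refine Prod.ext ?_ rfl
    exact (add_zero p.1).symm
  rw [h1]
  exact h

theorem VFS_tr {E : Type} [NormedAddCommGroup E] [NormedSpace ℝ E] (F : Set (logSpace K))
    (f : ℝ × logSpace K → E) (v : unitLattice K) :
    ∫ p in (Set.univ : Set ℝ) ×ˢ F, f (p.1, p.2 + (v : logSpace K)) = ∫ p in VFS_T F v, f p := by
  rw [← VFS_pre F v]
  exact (VFS_mp (v : logSpace K)).setIntegral_preimage_emb (VFS_emb _) f (VFS_T F v)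

theorem VFS_sum {E : Type} [NormedAddCommGroup E] [NormedSpace ℝ E] (F : Set (logSpace K)) (hF : FD K F)
    (f : ℝ × logSpace K → E) (hf : Integrable f) [Countable (unitLattice K)] :
    HasSum (fun v : unitLattice K => ∫ p in (Set.univ : Set ℝ) ×ˢ F, f (p.1, p.2 + (v : logSpace K)))
      (∫ p, f p) := by
  have h := hasSum_integral_iUnion_ae (f := f) (fun v => (VFS_meas F hF v).nullMeasurableSet)
    (VFS_disj F hF) hf.integrableOn
  have h1 : ∫ p in ⋃ v, VFS_T F v, f p = ∫ p, f p := by
    rw [setIntegral_congr_set (t := Set.univ), setIntegral_univ]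
    exact MeasureTheory.ae_eq_univ.2 (VFS_cover F hF)
  rw [h1] at h
  simp only [VFS_tr]
  exact h

end

theorem VFS : VFS_stmt := by
  intro K _ _ F g hF hg
  have : Countable (unitLattice K) := inferInstance
  refine ⟨fun v => ?_, VFS_sum F hF (fun p => ‖g p‖) hg.norm, VFS_sum F hF g hg⟩
  exact ((VFS_mp (v : logSpace K)).integrable_comp_of_integrable hg).integrableOn

end Pool.Agent.UN
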