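import Pool.Agent.helper82.UN.SpecP

set_option autoImplicit false

open NumberField Complex MeasureTheory nonZeroDivisors

namespace Pool.Agent.UN

def PINb_A {ι : Type} (k : ι → ℤ) : Set (ι → ℝ) := Set.pi Set.univ fun i => Set.Ioc (k i : ℝ) ((k i : ℝ) + 1)

theorem PINb_univ (ι : Type) : (⋃ k : ι → ℤ, PINb_A k) = (Set.univ : Set (ι → ℝ)) := by
  refine Set.eq_univ_of_forall fun t => ?_
  refine Set.mem_iUnion.2 ⟨fun i => ⌈t i⌉ - 1, fun i _ => ?_⟩
  have h1 := Int.le_ceil (t i)
  have h2 := Int.ceil_lt_add_one (t i)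
  constructor
  · push_cast; linarith
  · push_cast; linarith

theorem PINb : PIN_stmt := by
  classical
  intro ι _ f hf hd
  obtain ⟨u, hu, hb⟩ := hd
  have hAm : ∀ k : ι → ℤ, MeasurableSet (PINb_A k : Set (ι → ℝ)) := fun k =>
    MeasurableSet.univ_pi fun i => measurableSet_Ioc
  have hAv : ∀ k : ι → ℤ, volume (PINb_A k : Set (ι → ℝ)) = 1 := fun k => by
    unfold PINb_A
    rw [Real.volume_pi_Ioc]
    simp
  have hfb : ∀ k : ι → ℤ, ∀ t ∈ (PINb_A k : Set (ι → ℝ)), ‖f t‖ ≤ u k := by
    intro k t ht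
    have h1 := hb k (t - zc k) (fun i => by
      have h2 := ht i (Set.mem_univ i)
      have h3 : (t - zc k) i = t i - (k i : ℝ) := rfl
      rw [h3, abs_le]
      constructor
      · linarith [h2.1]
      · linarith [h2.2])
    rwa [sub_add_cancel] at h1
  have hi : ∀ k : ι → ℤ, IntegrableOn f (PINb_A k : Set (ι → ℝ)) volume := by
    intro k
    refine Measure.integrableOn_of_bounded (M := u k) (by rw [hAv]; exact ENNReal.one_ne_top)
      hf.aestronglyMeasurable ?_
    exact (ae_restrict_iff' (hAm k)).2 (Filter.Eventually.of_forall (hfb k))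
  have hs : Summable fun k : ι → ℤ => ∫ t in (PINb_A k : Set (ι → ℝ)), ‖f t‖ := by
    refine Summable.of_nonneg_of_le (fun k => integral_nonneg fun t => norm_nonneg _) (fun k => ?_) hu
    have h1 : ∫ t in (PINb_A k : Set (ι → ℝ)), ‖f t‖ ≤ ∫ t in (PINb_A k : Set (ι → ℝ)), u k := by
      refine setIntegral_mono_on (hi k).norm ?_ (hAm k) (hfb k)
      exact integrableOn_const (by rw [hAv]; exact ENNReal.one_ne_top) (by simp)
    have h2 : ∫ t in (PINb_A k : Set (ι → ℝ)), u k = u k := by
      rw [setIntegral_const]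
      simp [Measure.real, hAv]
    linarith
  have h := integrableOn_iUnion_of_summable_integral_norm hi hs
  rwa [PINb_univ, integrableOn_univ] at h

end Pool.Agent.UN
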